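import Pool.Agent.H69.LQ.Lib

/-!
# LQ: Poincaré inequalities on an interval (row P1)
-/

set_option autoImplicit false

open MeasureTheory Metric Set
open scoped ENNReal

open Pool.Agent.H85.LK (E adm lam Ann)
open Pool.Agent.H69.LQ

namespace Pool.Agent.H48.LQ

theorem p1_aux (a r : ℝ) (w w' : ℝ → ℝ) (har : a ≤ r) (hw : C1 w w') :
    (w r - w a) ^ 2 ≤ (r - a) * (∫ t in a..r, w' t ^ 2) := by
  obtain ⟨hd, hc⟩ := hw
  have hS : ∫ t in a..r, w' t = w r - w a :=
    intervalIntegral.integral_eq_sub_of_hasDerivAt (fun x _ => hd x) (hc.intervalIntegrable a r)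
  rcases eq_or_lt_of_le har with h | h
  · subst h
    simp
  · have hpos : 0 < r - a := sub_pos.2 h
    set S : ℝ := w r - w a with hSdef
    set c : ℝ := S / (r - a) with hcdef
    have hi1 : IntervalIntegrable (fun t => w' t ^ 2) volume a r :=
      (hc.pow 2).intervalIntegrable a r
    have hi2 : IntervalIntegrable (fun t => 2 * c * w' t) volume a r :=
      (continuous_const.mul hc).intervalIntegrable a r
    have hi3 : IntervalIntegrable (fun _ : ℝ => c ^ 2) volume a r :=
      continuous_const.intervalIntegrable a r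
    have h0 : 0 ≤ ∫ t in a..r, (w' t - c) ^ 2 :=
      intervalIntegral.integral_nonneg har (fun t _ => sq_nonneg _)
    have h1 : ∫ t in a..r, (w' t - c) ^ 2 =
        (∫ t in a..r, w' t ^ 2) - 2 * c * S + c ^ 2 * (r - a) := by
      have e1 : (fun t => (w' t - c) ^ 2) = fun t => (w' t ^ 2 - 2 * c * w' t) + c ^ 2 := by
        funext t; ring
      rw [e1, intervalIntegral.integral_add (hi1.sub hi2) hi3,
        intervalIntegral.integral_sub hi1 hi2, intervalIntegral.integral_const_mul, hS,
        intervalIntegral.integral_const, smul_eq_mul]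
      ring
    have hcS : c * (r - a) = S := by
      rw [hcdef]; field_simp
    rw [h1] at h0
    have h2 : 0 ≤ (r - a) * ((∫ t in a..r, w' t ^ 2) - 2 * c * S + c ^ 2 * (r - a)) :=
      mul_nonneg hpos.le h0
    have h3 : (r - a) * ((∫ t in a..r, w' t ^ 2) - 2 * c * S + c ^ 2 * (r - a)) =
        (r - a) * (∫ t in a..r, w' t ^ 2) - 2 * (c * (r - a)) * S + (c * (r - a)) ^ 2 := by ring
    rw [h3, hcS] at h2
    nlinarith [h2]

theorem pf_P1 : T_P1 := by
  intro a R w w' haR hw
  refine ⟨p1_aux a R w w' haR hw, ?_⟩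
  have hcw : Continuous w := continuous_iff_continuousAt.2 fun x => (hw.1 x).continuousAt
  have hc := hw.2
  set K : ℝ := ∫ t in a..R, w' t ^ 2 with hK
  have hi1 : ∀ x y : ℝ, IntervalIntegrable (fun t => w' t ^ 2) volume x y :=
    fun x y => (hc.pow 2).intervalIntegrable x y
  have hpt : ∀ r ∈ Icc a R, w r ^ 2 ≤ 2 * w a ^ 2 + 2 * (r - a) * K := by
    intro r hr
    have h1 := p1_aux a r w w' hr.1 hw
    have h2 : (∫ t in a..r, w' t ^ 2) ≤ K := by
      have h3 : (∫ t in a..r, w' t ^ 2) + (∫ t in r..R, w' t ^ 2) = K :=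
        intervalIntegral.integral_add_adjacent_intervals (hi1 a r) (hi1 r R)
      have h4 : 0 ≤ ∫ t in r..R, w' t ^ 2 :=
        intervalIntegral.integral_nonneg hr.2 (fun t _ => sq_nonneg _)
      linarith
    have h5 : (w r - w a) ^ 2 ≤ (r - a) * K :=
      h1.trans (mul_le_mul_of_nonneg_left h2 (sub_nonneg.2 hr.1))
    nlinarith [sq_nonneg (w r - 2 * w a)]
  have hi2 : IntervalIntegrable (fun r => w r ^ 2) volume a R :=
    (hcw.pow 2).intervalIntegrable a R
  have hc3 : Continuous (fun r : ℝ => 2 * w a ^ 2 + 2 * (r - a) * K) := by fun_prop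
  have h6 : (∫ r in a..R, w r ^ 2) ≤ ∫ r in a..R, (2 * w a ^ 2 + 2 * (r - a) * K) :=
    intervalIntegral.integral_mono_on haR hi2 (hc3.intervalIntegrable a R) hpt
  have h7 : ∫ r in a..R, (2 * w a ^ 2 + 2 * (r - a) * K) =
      2 * (R - a) * w a ^ 2 + (R - a) ^ 2 * K := by
    have hd : ∀ x ∈ uIcc a R, HasDerivAt
        (fun r : ℝ => 2 * (r - a) * w a ^ 2 + (r - a) ^ 2 * K)
        (2 * w a ^ 2 + 2 * (x - a) * K) x := by
      intro x _
      have h := ((((hasDerivAt_id x).sub_const a).const_mul 2).mul_const (w a ^ 2)).add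
        ((((hasDerivAt_id x).sub_const a).pow 2).mul_const K)
      refine h.congr_deriv ?_
      simp
    rw [intervalIntegral.integral_eq_sub_of_hasDerivAt hd (hc3.intervalIntegrable a R)]
    ring
  rw [h7] at h6
  exact h6

end Pool.Agent.H48.LQ
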