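import Pool.Agent.H69.LQ.Lib

/-!
# LQ: the zero of the radial function of degree zero (row Z0)
-/

set_option autoImplicit false

open MeasureTheory Metric Set
open scoped ENNReal

open Pool.Agent.H85.LK (E adm lam Ann)
open Pool.Agent.H69.LQ

namespace Pool.Agent.H48.LQ

theorem pf_Z0 (hJS : T_JS) (hJP : T_JP) : T_Z0 := by
  intro N L hN hF
  have hL := hF.pos
  have hN2 : (2 : ℝ) ≤ (N : ℝ) := by exact_mod_cast hN
  set ν : ℝ := (N : ℝ) / 2 with hν
  have hν1 : 1 ≤ ν := by rw [hν]; linarith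
  have hν0 : 0 < ν := by linarith
  set Z : ℝ := L / 4 with hZ
  have hZ0 : 0 < Z := by rw [hZ]; linarith
  obtain ⟨hsm, h00, hder, hrec⟩ := hJS ν hν0
  have hcont : Continuous (J ν) := hsm.continuous
  have hanti : StrictAntiOn (J ν) (Icc 0 Z) := by
    refine strictAntiOn_of_deriv_neg (convex_Icc 0 Z) hcont.continuousOn ?_
    intro x hx
    rw [interior_Icc] at hx
    rw [(hder x).deriv]
    have h1 : 0 < J (ν + 1) x := hF.first x hx.1.le hx.2
    have h2 : 0 < J (ν + 1) x / ν := div_pos h1 hν0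
    linarith
  have hJ2 : 0 < J (ν + 2) Z := by
    have h1 := hJP (ν + 1) Z (by linarith) hZ0 (fun z hz0 hz1 => hF.first z hz0 hz1) Z hZ0.le le_rfl
    have h2 : ν + 1 + 1 = ν + 2 := by ring
    rwa [h2] at h1
  have hneg : J ν Z < 0 := by
    rw [hrec Z]
    have h1 : J (ν + 1) Z = 0 := hF.zero
    have h2 : 0 < Z / (ν * (ν + 1)) * J (ν + 2) Z :=
      mul_pos (div_pos hZ0 (mul_pos hν0 (by linarith))) hJ2
    rw [h1]
    linarith
  have hmem : (0 : ℝ) ∈ Icc (J ν Z) (J ν 0) := ⟨hneg.le, by rw [h00]; exact zero_le_one⟩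
  obtain ⟨z0, hz0, hz1⟩ := intermediate_value_Icc' hZ0.le hcont.continuousOn hmem
  have hz0pos : 0 < z0 := by
    rcases eq_or_lt_of_le hz0.1 with h | h
    · exfalso
      rw [← h, h00] at hz1
      exact one_ne_zero hz1
    · exact h
  have hz0lt : z0 < Z := by
    rcases eq_or_lt_of_le hz0.2 with h | h
    · exfalso
      rw [h] at hz1
      linarith
    · exact h
  have hph : ∀ r : ℝ, ph N L 0 r = J ν (L * r ^ 2 / 4) := by
    intro r
    unfold ph
    have h1 : (N : ℝ) / 2 + ((0 : ℕ) : ℝ) = ν := by simp [hν]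
    rw [h1]
    simp
  set q : ℝ := 4 * z0 / L with hq
  have hq0 : 0 < q := by rw [hq]; positivity
  have hq1 : q < 1 := by
    rw [hq, div_lt_one hL]
    rw [hZ] at hz0lt
    linarith
  have hLq : L * q / 4 = z0 := by rw [hq]; field_simp
  have hs : Real.sqrt q ^ 2 = q := Real.sq_sqrt hq0.le
  have hs0 : 0 < Real.sqrt q := Real.sqrt_pos.2 hq0
  refine ⟨Real.sqrt q, ⟨hs0, ?_, ?_, ?_, ?_⟩⟩
  · rw [show (1 : ℝ) = Real.sqrt 1 by simp]
    exact Real.sqrt_lt_sqrt hq0.le hq1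
  · rw [hph, hs, hLq]
    exact hz1
  · intro r hr0 hr1
    rw [hph]
    have h1 : r ^ 2 < q := by
      rw [← hs]
      exact pow_lt_pow_left₀ hr1 hr0 two_ne_zero
    have h2 : L * r ^ 2 / 4 < z0 := by
      rw [← hLq]
      have := mul_lt_mul_of_pos_left h1 hL
      linarith
    have h3 : 0 ≤ L * r ^ 2 / 4 := by positivity
    have h4 := hanti ⟨h3, h2.le.trans hz0.2⟩ hz0 h2
    rw [hz1] at h4
    exact h4
  · intro r hr0 hr1
    rw [hph]
    have hr : 0 ≤ r := hs0.le.trans hr0.le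
    have h1 : q < r ^ 2 := by
      rw [← hs]
      exact pow_lt_pow_left₀ hr0 hs0.le two_ne_zero
    have h2 : z0 < L * r ^ 2 / 4 := by
      rw [← hLq]
      have := mul_lt_mul_of_pos_left h1 hL
      linarith
    have h5 : r ^ 2 ≤ 1 := by nlinarith
    have h3 : L * r ^ 2 / 4 ≤ Z := by
      rw [hZ]
      have := mul_le_mul_of_nonneg_left h5 hL.le
      linarith
    have h4 := hanti hz0 ⟨hz0.1.trans h2.le, h3⟩ h2
    rw [hz1] at h4
    exact h4

end Pool.Agent.H48.LQ
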